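import Pool.Agent.X39.Near.MasterZ
import Pool.Agent.X255.RH.Tow4

/-!
# Power towers of ALL algebraic numbers close to any number outside a set of dimension zero

The number `√2 ^ (√2 ^ √2)` is the second term of the sequence `z ^ z`, `z ^ (z ^ z)`, `z ^ (z ^ (z ^ z))`, … for the
algebraic number `z = √2`. Outside ONE set of complex numbers `x` of Hausdorff dimension `0`, for all number fields
`F ⊂ ℂ` (for instance the quadratic ones), all heights `h`, all `k ≥ 1` and `ω > 0` there are `C` and `T₁` such that for all
`T ≥ T₁` and ALL `z ∈ F` of height at most `T` with `|z - x| ≤ T ^ (-ω)`, not real and `≤ 0`, the numbers `log z`, `z ^ z`,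
`z ^ (z ^ z)`, …, up to the tower with `h + 1` levels, satisfy `|P| ≥ H ^ (-C)` for all nonzero integral polynomials `P` of
degree at most `k` and of height at most `H`, `T ^ (1 / k) ≤ H ≤ T ^ k`; in particular the towers are not rational numbers of
height at most `T ^ k`. More generally there is no relation with coefficients which are polynomials of bounded degree in the
`u_i(z) / w(z)` and in given complex numbers `ξ_i`, with coefficients in `F` of height at most `T ^ A`. This holds at the
convergents of all positive irrational real numbers outside this set, from some point on.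
-/

set_option autoImplicit false

open MeasureTheory NumberField

namespace Pool.Agent.Results.MP_93d8d2_nt.ApproximationsOfAllNumbers

open Pool.Agent.X39.Near (Size Dependent Inequality)

/-- The power towers `tower 0 z = z`, `tower (n + 1) z = z ^ tower n z` (principal values); `tower 1 z = z ^ z`,
`tower 2 z = z ^ (z ^ z)`. -/
noncomputable def tower : ℕ → ℂ → ℂ
  | 0 => fun z => z
  | n + 1 => fun z => z ^ tower n z

/-- the functions `log z` and `tower 1 z = z ^ z`, …, `tower h z` -/
noncomputable def values (h : ℕ) : Option (Fin h) → ℂ → ℂ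
  | none, z => Complex.log z
  | some i, z => tower (i + 1) z

theorem tower_eq (n : ℕ) {z : ℂ} (hz : z ∈ Complex.slitPlane) :
    Pool.Agent.X255.RH.Tow.pw Complex.log n z = tower n z := by
  induction n with
  | zero => rfl
  | succ n ih =>
    change Complex.exp (Pool.Agent.X255.RH.Tow.pw Complex.log n z * Complex.log z) = z ^ tower n z
    rw [ih, Complex.cpow_def_of_ne_zero (Complex.slitPlane_ne_zero hz), mul_comm]

theorem value_eq {h : ℕ} (w : Option (Fin h)) {z : ℂ} (hz : z ∈ Complex.slitPlane) :
    (fun (o : Option (Fin h)) => o.elim Complex.log fun i => Pool.Agent.X255.RH.Tow.pw Complex.log (i + 1)) w z =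
      values h w z := by
  rcases w with _ | i
  · rfl
  · exact tower_eq _ hz

/-- **Theorem.** Let `u_k`, `w` be complex polynomials, `w` without zeros on the complex plane slit along the real
numbers `≤ 0`, and `ξ_1, …, ξ_g` complex numbers. There is a set `E` of complex numbers of Hausdorff dimension `0` such
that for all `h` and all `x` in the slit plane, outside `E`:
(1) for all number fields `F` with an embedding `ι` in `ℂ`, all `k ≥ 1` and `ω > 0` there are `C`, `T₁` such that for all
`T ≥ T₁` and all `z ∈ F`, quotients of integers with conjugates at most `T`, with `|ι z - x| ≤ T ^ (-ω)`, every nonzero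
integral polynomial `P` of total degree at most `k` and height at most `H`, where `T ^ (1 / k) ≤ H ≤ T ^ k`, has at
`log z`, `z ^ z`, …, `tower h z` a value of absolute value at least `H ^ (-C)`;
(2) for all such `F`, `ι`, all `d`, `A` and `ω > 0` there are `B`, `T₁` such that for all `T ≥ T₁` and all such `z` the
numbers are not dependent (coefficients of degree at most `d` in the `u_k(z) / w(z)` and `ξ_i`);
(3) if `x` is real and irrational, for all `d`, `A` there is `B` such that the numbers at the convergents of `x` are not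
dependent over `ℚ`, at the level of the denominator, from some point on. -/
theorem result {q g : ℕ}
    (u : Fin q → Polynomial ℂ) (w : Polynomial ℂ) (hw : ∀ t ∈ Complex.slitPlane, w.eval t ≠ 0) (ξ : Fin g → ℂ) :
    ∃ E : Set ℂ, dimH E = 0 ∧ ∀ h : ℕ,
      (∀ x ∈ Complex.slitPlane, x ∉ E → ∀ (F : Type) [Field F] [NumberField F] (ι : F →+* ℂ)
        (k : ℕ) (ω : ℝ), 1 ≤ k → 0 < ω → ∃ C T₁ : ℝ, ∀ T : ℝ, T₁ ≤ T → ∀ t : F, Size F T t →
          ‖ι t - x‖ ≤ T ^ (-ω) → Inequality k C T (fun j => values h j (ι t))) ∧
      (∀ x ∈ Complex.slitPlane, x ∉ E → ∀ (F : Type) [Field F] [NumberField F] (ι : F →+* ℂ)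
        (d A : ℕ) (ω : ℝ), 0 < ω → ∃ B T₁ : ℝ, ∀ T : ℝ, T₁ ≤ T → ∀ t : F, Size F T t →
          ‖ι t - x‖ ≤ T ^ (-ω) → ¬ Dependent (values h) u w ξ F ι d A B T t) ∧
      ∀ x : ℝ, Irrational x → (x : ℂ) ∈ Complex.slitPlane → (x : ℂ) ∉ E → ∀ d A : ℕ, ∃ (B : ℝ) (n₀ : ℕ),
        ∀ k : ℕ, n₀ ≤ k → ¬ Dependent (values h) u w ξ ℚ (algebraMap ℚ ℂ) d A B (x.convergent k).den
          (x.convergent k) := by
  have hop : IsOpen Complex.slitPlane := Complex.isOpen_slitPlane
  have hpre : IsPreconnected Complex.slitPlane :=
    (Complex.starConvex_one_slitPlane.isPathConnected Complex.one_mem_slitPlane).isConnected.isPreconnected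
  have hL : AnalyticOnNhd ℂ Complex.log Complex.slitPlane := fun z hz => analyticAt_clog hz
  have han0 : ∀ (h : ℕ) (w : Option (Fin h)), AnalyticOnNhd ℂ
      ((fun (o : Option (Fin h)) => o.elim Complex.log fun i => Pool.Agent.X255.RH.Tow.pw Complex.log (i + 1)) w)
      Complex.slitPlane := by
    rintro h (_ | i)
    · exact hL
    · exact Pool.Agent.X255.RH.Tow.pw_an hL _
  have han : ∀ (h : ℕ) (w : Option (Fin h)), AnalyticOnNhd ℂ (values h w) Complex.slitPlane := by
    intro h w z hz
    refine (han0 h w z hz).congr ?_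
    filter_upwards [hop.mem_nhds hz] with y hy
    exact value_eq w hy
  have hind : ∀ h : ℕ, Pool.Agent.X255.RH.Indep Complex.slitPlane (values h) := by
    intro h P hP
    refine Pool.Agent.X255.RH.Tow.pw_indep hop ⟨1, Complex.one_mem_slitPlane⟩ hL
      (fun z hz => Complex.exp_log (Complex.slitPlane_ne_zero hz)) h P fun z hz => ?_
    rw [← hP z hz]
    unfold Pool.Agent.Y890.SP.evF
    congr 1
    funext w
    exact value_eq w hz
  choose E h1 h2 h3 using fun h : ℕ => Pool.Agent.X39.Near.master_indep Complex.slitPlane hop hpre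
    (values h) (han h) (hind h) u w hw ξ
  refine ⟨⋃ h, E h, ?_, fun h => ⟨?_, ?_, ?_⟩⟩
  · rw [dimH_iUnion]
    simp [h1]
  · exact fun x hx hxE => Pool.Agent.X39.Near.ineq_of (h2 h) x hx (fun h0 => hxE (Set.mem_iUnion.2 ⟨h, h0⟩))
  · exact fun x hx hxE => h2 h x hx (fun h0 => hxE (Set.mem_iUnion.2 ⟨h, h0⟩))
  · exact fun x hx hxV hxE => h3 h x hx hxV (fun h0 => hxE (Set.mem_iUnion.2 ⟨h, h0⟩))

end Pool.Agent.Results.MP_93d8d2_nt.ApproximationsOfAllNumbers
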