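import Pool.Agent.X255.RH.Tow4

/-!
# Power towers of almost all algebraic numbers, jointly for all conjugates

The number `√2 ^ (√2 ^ √2)` is the second term of the sequence `z ^ z`, `z ^ (z ^ z)`, `z ^ (z ^ (z ^ z))`, … for the
algebraic number `z = √2`. By Schanuel's conjecture these numbers and `log z` are algebraically independent for every
algebraic irrational `z`; unconditionally nothing is known beyond the transcendence of `log z` and `z ^ z`. We prove for
every height `h` and for 100% of the integral polynomials of degree `g` (for instance `g = 2`), ordered by the maximum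
`T` of the absolute values of the coefficients, that the numbers `log z`, `z ^ z`, `z ^ (z ^ z)`, …, up to the tower with
`h + 1` levels, `z` ALL roots of the polynomial which are not real and `≤ 0`, satisfy no relation whose degree, and the
degree of whose coefficient field, is at most `ω (T)`, and whose coefficients are of size at most `T ^ ω (T)`, where
`ω (T) → ∞`; the coefficients may also contain arbitrary fixed complex numbers `ξ_b`. In particular the towers of these
`z` are not rational numbers, and not algebraic numbers of bounded degree, of height at most a power of `T`.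

Proof: `Pool.Agent.X255.NP` (the norm to `ℚ` of a relation over the field generated by all roots, a nonstandard version of
the Bombieri-Pila method), the algebraic independence over `ℂ(z)` of the functions `log z`, `z ^ z`, `z ^ (z ^ z)`, …
(`Pool.Agent.X255.RH.Tow4`, differential algebra), and `Pool.Agent.X255.RH` (independence of functions of different
variables; almost no integral polynomial has close roots or roots close to a given point).
-/

set_option autoImplicit false

open Polynomial Filter NumberField
open scoped Classical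

namespace Pool.Agent.Results.MP_93d8d2_nt.ConjugateTowers

/-- The power towers `tower 0 z = z`, `tower (n + 1) z = z ^ tower n z` (principal values); `tower 1 z = z ^ z`,
`tower 2 z = z ^ (z ^ z)`. -/
noncomputable def tower : ℕ → ℂ → ℂ
  | 0 => fun z => z
  | n + 1 => fun z => z ^ tower n z

/-- the numbers `log z` and `tower 1 z = z ^ z`, …, `tower h z` -/
noncomputable def value {h : ℕ} (z : ℂ) : Option (Fin h) → ℂ
  | none => Complex.log z
  | some i => tower (i + 1) z

/-- the polynomial `a_g X ^ g + … + a_0` -/
noncomputable def poly {g : ℕ} (a : Fin (g + 1) → ℤ) : ℂ[X] := ∑ i, C (a i : ℂ) * X ^ (i : ℕ)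

/-- the roots of the polynomial in the set `V` -/
noncomputable def rootsIn (V : Set ℂ) {g : ℕ} (a : Fin (g + 1) → ℤ) : Finset ℂ :=
  (poly a).roots.toFinset.filter fun z => z ∈ V

/-- The numbers `x q`, `q ∈ Q`, satisfy no relation of degree at most `k` in each of them with coefficients
`∑ ξ b * c b`, `b < k`, where the `c b` are integers of a number field of degree at most `k`, all of whose conjugates
are of absolute value at most `T ^ k`, except the relations all of whose coefficients vanish. -/
def Unrelated {Q : Type} [Fintype Q] [DecidableEq Q] (ξ : ℕ → ℂ) (k : ℕ) (T : ℝ) (x : Q → ℂ) : Prop :=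
  ∀ (F : Type) [Field F] [NumberField F], Module.finrank ℚ F ≤ k → ∀ (io : F →+* ℂ)
    (c : (Q → Fin (k + 1)) → Fin k → 𝓞 F), (∀ l b (φ : F →+* ℂ), ‖φ (c l b : F)‖ ≤ T ^ k) →
    ∑ l, (∑ b : Fin k, ξ b * io (c l b : F)) * ∏ q, x q ^ (l q : ℕ) = 0 → ∀ l, ∑ b : Fin k, ξ b * io (c l b : F) = 0

/-- the `a` with `|a_i| ≤ T` -/
noncomputable def box (g T : ℕ) : Finset (Fin (g + 1) → ℤ) := Fintype.piFinset fun _ => Finset.Icc (-(T : ℤ)) T

/-- the numbers `log z`, `z ^ z`, …, `tower h z`, `z` all roots of `a` outside the half-line of the real numbers `≤ 0`,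
are unrelated up to complexity `k` -/
def Free {g : ℕ} (h : ℕ) (ξ : ℕ → ℂ) (k : ℕ) (T : ℝ) (a : Fin (g + 1) → ℤ) : Prop :=
  Unrelated ξ k T fun q : {z // z ∈ rootsIn Complex.slitPlane a} × Option (Fin h) => value q.1 q.2

/-- `a` is of degree `g`, with simple roots, and `Free` -/
def Good {g : ℕ} (h : ℕ) (ξ : ℕ → ℂ) (k : ℕ) (T : ℝ) (a : Fin (g + 1) → ℤ) : Prop :=
  a (Fin.last g) ≠ 0 ∧ (poly a).Separable ∧ Free h ξ k T a

/-- `a` is of degree `g`, its roots are simple, of absolute value at most `R`, at distance at least `η` from each other,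
and the roots in `V` are at distance at least `η` from the complement of `V` -/
def Position (V : Set ℂ) (R η : ℝ) {g : ℕ} (a : Fin (g + 1) → ℤ) : Prop :=
  a (Fin.last g) ≠ 0 ∧ (poly a).Separable ∧ ∀ z, (poly a).eval z = 0 → ‖z‖ ≤ R ∧
    (∀ w, (poly a).eval w = 0 → w ≠ z → η ≤ ‖z - w‖) ∧ (z ∈ V → Metric.ball z η ⊆ V)

theorem tower_eq (n : ℕ) {z : ℂ} (hz : z ∈ Complex.slitPlane) :
    Pool.Agent.X255.RH.Tow.pw Complex.log n z = tower n z := by
  induction n with
  | zero => rfl
  | succ n ih =>
    change Complex.exp (Pool.Agent.X255.RH.Tow.pw Complex.log n z * Complex.log z) = z ^ tower n z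
    rw [ih, Complex.cpow_def_of_ne_zero (Complex.slitPlane_ne_zero hz), mul_comm]

theorem value_eq {h : ℕ} (w : Option (Fin h)) {z : ℂ} (hz : z ∈ Complex.slitPlane) :
    (fun (o : Option (Fin h)) => o.elim Complex.log fun i => Pool.Agent.X255.RH.Tow.pw Complex.log (i + 1)) w z =
      value z w := by
  rcases w with _ | i
  · rfl
  · exact tower_eq _ hz

/-- **Theorem.** Let `g ≥ 1`, `h ≥ 0` and let `ξ` be a sequence of complex numbers.
(1) There is a monotone `ω`, `ω(T) → ∞`, such that the proportion of the polynomials with `|a_i| ≤ T` which are not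
`Good` with `k = ω(T)` is at most `1 / ω(T)`.
(2) For fixed `k`, `R`, `η > 0` and `ε > 0`, all but `C T ^ (g + ε)` of the polynomials with `|a_i| ≤ T` whose roots
are in the compact position `Position Complex.slitPlane R η` are `Free` (there are about `(2 T) ^ (g + 1)` polynomials). -/
theorem result (g : ℕ) (hg : 0 < g) (h : ℕ) (ξ : ℕ → ℂ) :
    (∃ ω : ℕ → ℕ, Tendsto ω atTop atTop ∧ Monotone ω ∧ ∀ T,
      ω T * ((box g T).filter fun a => ¬ Good h ξ (ω T) T a).card ≤ (box g T).card) ∧
    ∀ (k : ℕ) (R η ε : ℝ), 0 < η → 0 < ε → ∃ C : ℝ, ∀ T : ℕ, 1 ≤ T →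
      (((box g T).filter fun a => Position Complex.slitPlane R η a ∧ ¬ Free h ξ k T a).card : ℝ) ≤
        C * (T : ℝ) ^ ((g : ℝ) + ε) := by
  have hop : IsOpen Complex.slitPlane := Complex.isOpen_slitPlane
  have hpre : IsPreconnected Complex.slitPlane := (Complex.starConvex_one_slitPlane.isPathConnected Complex.one_mem_slitPlane).isConnected.isPreconnected
  have htame : Pool.Agent.X255.RH.Tame Complex.slitPlane Complex.slitPlane := Pool.Agent.X255.RH.tame_slit
  have hL : AnalyticOnNhd ℂ Complex.log Complex.slitPlane := fun z hz => analyticAt_clog hz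
  have han0 : ∀ w : Option (Fin h), AnalyticOnNhd ℂ
      ((fun (o : Option (Fin h)) => o.elim Complex.log fun i => Pool.Agent.X255.RH.Tow.pw Complex.log (i + 1)) w)
      Complex.slitPlane := by
    rintro (_ | i)
    · exact hL
    · exact Pool.Agent.X255.RH.Tow.pw_an hL _
  have han : ∀ w : Option (Fin h), AnalyticOnNhd ℂ (fun z => value z w) Complex.slitPlane := by
    intro w z hz
    refine (han0 w z hz).congr ?_
    filter_upwards [hop.mem_nhds hz] with y hy
    exact value_eq w hy
  have hind : Pool.Agent.X255.RH.Indep Complex.slitPlane (fun (w : Option (Fin h)) z => value z w) := by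
    intro P hP
    refine Pool.Agent.X255.RH.Tow.pw_indep hop ⟨1, Complex.one_mem_slitPlane⟩ hL
      (fun z hz => Complex.exp_log (Complex.slitPlane_ne_zero hz)) h P fun z hz => ?_
    rw [← hP z hz]
    unfold Pool.Agent.Y890.SP.evF
    congr 1
    funext w
    exact value_eq w hz
  have h1 := Pool.Agent.X255.RH.main_all (g := g) hg hpre hop (fun _ => Complex.slitPlane) (fun _ => htame) han hind ξ
  refine ⟨h1, fun k R η ε hη hε => ?_⟩
  have h2 := Pool.Agent.X255.RH.main_eps (g := g) hg hpre hop han hind Complex.slitPlane ξ k R η ε hη hε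
  exact h2

end Pool.Agent.Results.MP_93d8d2_nt.ConjugateTowers
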