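import Mathlib
import Pool.Agent.X142.DN.Int
import Pool.Agent.H137R5.TowFam

/-!
# Few bases `√n` have `(√n)^z`, `z = √2^√2`, close to a rational or algebraic number

Let `z = β^γ` with positive algebraic `β ≠ 1` and irrational algebraic `γ`, for example
`z = √2^√2`.  For all but `C X^ε` of the integers `n ≤ X` the number `(n^{1/k})^z` is not closer than
`n^{-w}` to any rational number of denominator at most `n^c`, nor to any algebraic number of bounded
degree and height at most `n^c`.  The number of the problem is the case `k = 2`, `n = 2`,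
`β = γ = √2`.
-/

set_option autoImplicit false

namespace Pool.Agent.Results.MP_93d8d2_nt.FewBases

open Polynomial

/-- Some irreducible polynomial with integer coefficients, of degree between `1` and `d` and with
coefficients of absolute value at most `H`, has absolute value at most `η` at `ξ`. -/
def NearAlg (d : ℕ) (H η ξ : ℝ) : Prop :=
  ∃ Q : ℤ[X], Irreducible Q ∧ 1 ≤ Q.natDegree ∧ Q.natDegree ≤ d ∧
    (∀ i, |(Q.coeff i : ℝ)| ≤ H) ∧ |aeval ξ Q| ≤ η

/-- `r` is positive and its numerator and denominator are at most `X`. -/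
def Height (X : ℕ) (r : ℚ) : Prop := 0 < r ∧ r.num ≤ X ∧ r.den ≤ X

/-- The tower `(x^{1/k})^(β^γ)`. -/
noncomputable def tower (β γ : ℝ) (k : ℕ) (x : ℝ) : ℝ := (x ^ (1 / (k : ℝ))) ^ (β ^ γ)

lemma tower_eq (β γ : ℝ) (k : ℕ) {x : ℝ} (hx : 0 < x) :
    tower β γ k x = x ^ (1 / (k : ℝ) * β ^ γ) := by
  rw [tower, Real.rpow_mul hx.le]

/-- Let `β > 0`, `β ≠ 1`, `γ` be real algebraic numbers, `γ` irrational, `k ≥ 1` an integer and
`ε > 0`.
(1) For all `d` and `c` there are `w` and `C` such that for all `X ≥ 1` at most `C X^ε` integers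
`1 ≤ n ≤ X` satisfy `|Q((n^{1/k})^(β^γ))| ≤ n^{-w}` for an irreducible `Q ∈ ℤ[X]` of degree between
`1` and `d` with coefficients at most `n^c` in absolute value.
(2) For all `c` there are `w` and `C` such that for all `X ≥ 1` at most `C X^ε` integers `1 ≤ n ≤ X`
satisfy `|(n^{1/k})^(β^γ) - p/q| ≤ n^{-w}` for integers `p` and `1 ≤ q ≤ n^c`.
(3) For all `d` and `c` there are `w` and `C` such that for all `X ≥ 1` at most `C X^ε` positive
rational numbers `r` of height at most `X` satisfy `|Q((r^{1/k})^(β^γ))| ≤ X^{-w}` for an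
irreducible `Q ∈ ℤ[X]` of degree between `1` and `d` with coefficients at most `X^c` in absolute
value.
(4) The number of the problem is the value for `β = γ = √2`, `k = 2` and `n = 2`. -/
theorem result :
    (∀ (β γ : ℝ) (k : ℕ) (ε : ℝ), 0 < β → β ≠ 1 → IsAlgebraic ℚ β → IsAlgebraic ℚ γ →
      Irrational γ → 1 ≤ k → 0 < ε →
      (∀ (d : ℕ) (c : ℝ), ∃ w C : ℝ, ∀ X : ℕ, 1 ≤ X →
        (({n : ℕ | 1 ≤ n ∧ n ≤ X ∧ NearAlg d ((n : ℝ) ^ c) ((n : ℝ) ^ (-w)) (tower β γ k n)}.ncard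
          : ℕ) : ℝ) ≤ C * (X : ℝ) ^ ε) ∧
      (∀ c : ℝ, ∃ w C : ℝ, ∀ X : ℕ, 1 ≤ X →
        (({n : ℕ | 1 ≤ n ∧ n ≤ X ∧ ∃ (p : ℤ) (q : ℕ), 1 ≤ q ∧ (q : ℝ) ≤ (n : ℝ) ^ c ∧
          |tower β γ k n - (p : ℝ) / (q : ℝ)| ≤ (n : ℝ) ^ (-w)}.ncard : ℕ) : ℝ) ≤
            C * (X : ℝ) ^ ε) ∧
      (∀ (d : ℕ) (c : ℝ), ∃ w C : ℝ, ∀ X : ℕ, 1 ≤ X →
        (({r : ℚ | Height X r ∧
          NearAlg d ((X : ℝ) ^ c) ((X : ℝ) ^ (-w)) (tower β γ k r)}.ncard : ℕ) : ℝ) ≤
            C * (X : ℝ) ^ ε)) ∧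
    tower (Real.sqrt 2) (Real.sqrt 2) 2 2 = Real.sqrt 2 ^ (Real.sqrt 2 ^ Real.sqrt 2) := by
  refine ⟨fun β γ k ε hβ hβ1 hβa hγa hγ hk hε => ?_, ?_⟩
  · have hz : Transcendental ℚ (β ^ γ) := Pool.Agent.H137R5.Tow.gs hβ hβ1 hβa hγa hγ
    have hk0 : ((k : ℚ)) ≠ 0 := by exact_mod_cast (by omega : k ≠ 0)
    have hirr : Irrational (1 / (k : ℝ) * β ^ γ) := by
      have h1 : Irrational (β ^ γ) := hz.irrational
      have h2 := h1.ratCast_mul (q := 1 / (k : ℚ)) (by positivity)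
      push_cast at h2
      exact h2
    obtain ⟨h1, h2, h3⟩ := Pool.Agent.X142.DN.three hirr ε hε
    refine ⟨fun d c => ?_, fun c => ?_, fun d c => ?_⟩
    · obtain ⟨w, C, h⟩ := h1 d c
      refine ⟨w, |C|, fun X hX => Pool.Agent.X142.DN.ncard_le (by positivity) fun S hS => ?_⟩
      refine (h X hX S fun n hn => ?_).trans
        (mul_le_mul_of_nonneg_right (le_abs_self C) (by positivity))
      obtain ⟨g1, g2, g3⟩ := hS n hn
      rw [tower_eq β γ k (by exact_mod_cast g1)] at g3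
      exact ⟨g1, g2, g3⟩
    · obtain ⟨w, C, h⟩ := h2 c
      refine ⟨w, |C|, fun X hX => Pool.Agent.X142.DN.ncard_le (by positivity) fun S hS => ?_⟩
      refine (h X hX S fun n hn => ?_).trans
        (mul_le_mul_of_nonneg_right (le_abs_self C) (by positivity))
      obtain ⟨g1, g2, g3⟩ := hS n hn
      rw [tower_eq β γ k (by exact_mod_cast g1)] at g3
      exact ⟨g1, g2, g3⟩
    · obtain ⟨w, C, h⟩ := h3 d c
      refine ⟨w, |C|, fun X hX => Pool.Agent.X142.DN.ncard_le (by positivity) fun S hS => ?_⟩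
      refine (h X hX S fun r hr => ?_).trans
        (mul_le_mul_of_nonneg_right (le_abs_self C) (by positivity))
      obtain ⟨g1, g3⟩ := hS r hr
      rw [tower_eq β γ k (by exact_mod_cast g1.1)] at g3
      exact ⟨g1, g3⟩
  · rw [tower]
    congr 1
    rw [Real.sqrt_eq_rpow]
    norm_num

end Pool.Agent.Results.MP_93d8d2_nt.FewBases
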