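import Pool.Agent.X255.RH.Tow9
import Pool.Agent.X255.RH.Mea3

/-!
# `√2 ^ (√2 ^ z)` and higher towers with fixed bases at almost all algebraic numbers `z`, jointly for all conjugates

The problem is about `w = √2 ^ (√2 ^ z)` for `z = √2`. For fixed nonzero complex numbers `c_0, c_1, …` and a nonconstant
complex polynomial `y` let `t_0 (z) = y (z)`, `t_(n+1) (z) = exp (c_n t_n (z))`, so that `t_1 (z) = β_0 ^ y(z)`,
`t_2 (z) = β_1 ^ (β_0 ^ y(z))`, …, where `c_n` is a logarithm of `β_n` (for `c_n = log √2`, `y (z) = z` these are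
`√2 ^ z`, `√2 ^ (√2 ^ z)`, …). For every `h` and 100% of the integral polynomials of degree `g`, ordered by the maximum `T`
of the absolute values of the coefficients, we prove that the numbers `t_1 (z), …, t_h (z)`, `z` ALL roots of the
polynomial, satisfy no relation whose degree, and the degree of whose coefficient field, is at most `ω (T)`, and whose
coefficients are of size at most `T ^ ω (T)`, where `ω (T) → ∞` (the coefficients may also contain arbitrary fixed
complex numbers, for instance polynomials in the `c_n`). We also prove lower bounds for polynomials of bounded degree in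
these numbers, with arbitrary complex coefficients. The hand-in `ConjugateTowers` treats the towers `z ^ z`,
`z ^ (z ^ z)`, ….

Proof: `Pool.Agent.X255.NP` and `Pool.Agent.Y890.MV` (nonstandard versions of the Bombieri-Pila method), the algebraic
independence over `ℂ(z)` of the functions (`Pool.Agent.X255.RH.Tow9`, differential algebra), and `Pool.Agent.X255.RH`
(independence of functions of different variables; almost no integral polynomial has close roots).
-/

set_option autoImplicit false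

open Polynomial Filter NumberField
open scoped Classical

namespace Pool.Agent.Results.MP_93d8d2_nt.FixedBaseTowers

/-- The tower `t_0 (z) = y (z)`, `t_(n+1) (z) = exp (c_n t_n (z))`. -/
noncomputable def tower (y : ℂ[X]) (c : ℕ → ℂ) : ℕ → ℂ → ℂ
  | 0 => fun z => y.eval z
  | n + 1 => fun z => Complex.exp (c n * tower y c n z)

/-- the polynomial `a_g X ^ g + … + a_0` -/
noncomputable def poly {g : ℕ} (a : Fin (g + 1) → ℤ) : ℂ[X] := ∑ i, C (a i : ℂ) * X ^ (i : ℕ)

/-- the roots of the polynomial in the set `V` -/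
noncomputable def rootsIn (V : Set ℂ) {g : ℕ} (a : Fin (g + 1) → ℤ) : Finset ℂ :=
  (poly a).roots.toFinset.filter fun z => z ∈ V

/-- The numbers `x q`, `q ∈ Q`, satisfy no relation of degree at most `k` in each of them with coefficients
`∑ ξ b * c b`, `b < k`, where the `c b` are integers of a number field of degree at most `k`, all of whose conjugates
are of absolute value at most `T ^ k`, except the relations all of whose coefficients vanish. -/
def Unrelated {Q : Type} [Fintype Q] [DecidableEq Q] (ξ : ℕ → ℂ) (k : ℕ) (T : ℝ) (x : Q → ℂ) : Prop :=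
  ∀ (F : Type) [Field F] [NumberField F], Module.finrank ℚ F ≤ k → ∀ (io : F →+* ℂ)
    (c : (Q → Fin (k + 1)) → Fin k → 𝓞 F), (∀ l b (φ : F →+* ℂ), ‖φ (c l b : F)‖ ≤ T ^ k) →
    ∑ l, (∑ b : Fin k, ξ b * io (c l b : F)) * ∏ q, x q ^ (l q : ℕ) = 0 → ∀ l, ∑ b : Fin k, ξ b * io (c l b : F) = 0

/-- Every polynomial `P` of degree at most `k` in each of the numbers `x q`, with coefficients `∑ ξ b * c b`, `b < k`,
where the `c b` are rational integers of absolute value at most `T ^ k`, satisfies `|P (x)| ≥ T ^ (-B) |p|` for each of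
its coefficients `p`. -/
def Measure {Q : Type} [Fintype Q] [DecidableEq Q] (ξ : ℕ → ℂ) (k : ℕ) (B T : ℝ) (x : Q → ℂ) : Prop :=
  ∀ c : (Q → Fin (k + 1)) → Fin k → ℤ, (∀ l b, |(c l b : ℝ)| ≤ T ^ k) → ∀ l₀,
    T ^ (-B) * ‖∑ b : Fin k, ξ b * (c l₀ b : ℂ)‖ ≤
      ‖∑ l, (∑ b : Fin k, ξ b * (c l b : ℂ)) * ∏ q, x q ^ (l q : ℕ)‖

/-- the `a` with `|a_i| ≤ T` -/
noncomputable def box (g T : ℕ) : Finset (Fin (g + 1) → ℤ) := Fintype.piFinset fun _ => Finset.Icc (-(T : ℤ)) T

/-- the numbers `t_1 (z), …, t_h (z)`, `z` all roots of `a` -/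
noncomputable def numbers {g : ℕ} (y : ℂ[X]) (c : ℕ → ℂ) (h : ℕ) (a : Fin (g + 1) → ℤ)
    (q : {z // z ∈ rootsIn Set.univ a} × Fin h) : ℂ :=
  tower y c (q.2 + 1) q.1

/-- `a` is of degree `g`, with simple roots, and the numbers are unrelated -/
def Good {g : ℕ} (y : ℂ[X]) (c : ℕ → ℂ) (h : ℕ) (ξ : ℕ → ℂ) (k : ℕ) (T : ℝ) (a : Fin (g + 1) → ℤ) : Prop :=
  a (Fin.last g) ≠ 0 ∧ (poly a).Separable ∧ Unrelated ξ k T (numbers y c h a)

/-- `a` is of degree `g`, with simple roots, and the numbers satisfy the lower bounds -/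
def GoodM {g : ℕ} (y : ℂ[X]) (c : ℕ → ℂ) (h : ℕ) (ξ : ℕ → ℂ) (k : ℕ) (B T : ℝ) (a : Fin (g + 1) → ℤ) : Prop :=
  a (Fin.last g) ≠ 0 ∧ (poly a).Separable ∧ Measure ξ k B T (numbers y c h a)

/-- `a` is of degree `g`, its roots are simple, of absolute value at most `R`, at distance at least `η` from each other,
and the roots in `V` are at distance at least `η` from the complement of `V` -/
def Position (V : Set ℂ) (R η : ℝ) {g : ℕ} (a : Fin (g + 1) → ℤ) : Prop :=
  a (Fin.last g) ≠ 0 ∧ (poly a).Separable ∧ ∀ z, (poly a).eval z = 0 → ‖z‖ ≤ R ∧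
    (∀ w, (poly a).eval w = 0 → w ≠ z → η ≤ ‖z - w‖) ∧ (z ∈ V → Metric.ball z η ⊆ V)

theorem tower_eq (y : ℂ[X]) (c : ℕ → ℂ) (n : ℕ) : Pool.Agent.X255.RH.Tow.ct y c n = tower y c n := by
  induction n with
  | zero => rfl
  | succ n ih =>
    change (fun z => Complex.exp (c n * Pool.Agent.X255.RH.Tow.ct y c n z)) = fun z => Complex.exp (c n * tower y c n z)
    rw [ih]

/-- **Theorem.** Let `g ≥ 1`, let `y` be a nonconstant complex polynomial, `c_0, c_1, …` nonzero complex numbers and `h ≥ 0`.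
(1) For every sequence `ξ` there is a monotone `ω`, `ω(T) → ∞`, such that the proportion of the polynomials with
`|a_i| ≤ T` which are not `Good` with `k = ω(T)` is at most `1 / ω(T)`.
(2) For every `k ≥ 1` there are `B` and `T₀` such that for `T ≥ T₀` and all `ξ` (which may depend on `T`) the proportion
of the polynomials with `|a_i| ≤ T` which are not `GoodM` is at most `1 / k`.
(3) For fixed `k ≥ 1`, `R`, `η > 0` and `ε > 0` there are `B`, `C` such that for all `ξ` the lower bounds
`Measure ξ k B T` hold for all but `C T ^ (g + ε)` of the polynomials with `|a_i| ≤ T` whose roots are in the compact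
position `Position Set.univ R η` (there are about `(2 T) ^ (g + 1)` polynomials). -/
theorem result (g : ℕ) (hg : 0 < g) (y : ℂ[X]) (hy : 0 < y.natDegree) (c : ℕ → ℂ) (hc : ∀ n, c n ≠ 0) (h : ℕ) :
    (∀ ξ : ℕ → ℂ, ∃ ω : ℕ → ℕ, Tendsto ω atTop atTop ∧ Monotone ω ∧ ∀ T,
      ω T * ((box g T).filter fun a => ¬ Good y c h ξ (ω T) T a).card ≤ (box g T).card) ∧
    (∀ k : ℕ, 1 ≤ k → ∃ (B : ℝ) (T₀ : ℕ), ∀ T : ℕ, T₀ ≤ T → ∀ ξ : ℕ → ℂ,
      (k : ℝ) * ((box g T).filter fun a => ¬ GoodM y c h ξ k B T a).card ≤ (box g T).card) ∧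
    ∀ (k : ℕ) (R η ε : ℝ), 1 ≤ k → 0 < η → 0 < ε → ∃ B C : ℝ, ∀ T : ℕ, 1 ≤ T → ∀ ξ : ℕ → ℂ,
      (((box g T).filter fun a => Position Set.univ R η a ∧ ¬ Measure ξ k B T (numbers y c h a)).card : ℝ) ≤
        C * (T : ℝ) ^ ((g : ℝ) + ε) := by
  have hop : IsOpen (Set.univ : Set ℂ) := isOpen_univ
  have hpre : IsPreconnected (Set.univ : Set ℂ) := isPreconnected_univ
  have htame : Pool.Agent.X255.RH.Tame Set.univ Set.univ := Pool.Agent.X255.RH.tame_univ
  have han : ∀ w : Fin h, AnalyticOnNhd ℂ (tower y c (w + 1)) Set.univ := by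
    intro w
    rw [← tower_eq]
    exact Pool.Agent.X255.RH.Tow.ct_an y c _ _
  have hind : Pool.Agent.X255.RH.Indep Set.univ (fun (w : Fin h) => tower y c (w + 1)) := by
    have h1 := Pool.Agent.X255.RH.Tow.ct_indep hop Set.univ_nonempty y hy c hc h
    rwa [show (fun (w : Fin h) => Pool.Agent.X255.RH.Tow.ct y c (w + 1)) = fun (w : Fin h) => tower y c (w + 1) from
      funext fun w => tower_eq y c _] at h1
  refine ⟨fun ξ => ?_, fun k hk => ?_, fun k R η ε hk hη hε => ?_⟩
  · exact Pool.Agent.X255.RH.main_all (g := g) hg hpre hop (fun _ => Set.univ) (fun _ => htame) han hind ξ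
  · exact Pool.Agent.X255.RH.mea_all (g := g) hg hpre hop htame han hind k hk
  · exact Pool.Agent.X255.RH.mea_eps (g := g) hg hpre hop han hind Set.univ k R η ε hη hε

end Pool.Agent.Results.MP_93d8d2_nt.FixedBaseTowers
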